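import Pool.Agent.TH634.SH.Main

/-!
# Smallest lower shadow of a family covering a higher layer: the regime `t < s + ⌊t / r⌋`

`f n r s t` is the least size of the lower `r`-shadow of a family of `s`-subsets of an `n`-set such
that every `t`-subset contains a member. If `t < s + ⌊t / r⌋`, then the `r`-sets outside the
shadow have no `t - s + 1` pairwise disjoint members, and the Erdős matching theorem (proved here
for large `n`) gives `f = C(n - (t - s), r)`, attained by all `s`-subsets of an
`(n - (t - s))`-set. If `s + ⌊t / r⌋ ≤ t`, then the `s`-sets missing one of `r` nearly equal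
classes are `t`-covering, so `f ≤ C(n, r) - ⌊n / r⌋ ^ r`.
-/

set_option autoImplicit false

namespace Pool.Agent.Results.MP_455133_co.MatchingRegime

open Pool.Agent.TH634.SH

/-- The smallest lower `r`-shadow of a `t`-covering family of `s`-subsets of `[n]`: the exact value
for all large `n` if `t < s + ⌊t / r⌋`, and `f ≤ C(n, r) - ⌊n / r⌋ ^ r` otherwise. -/
theorem result (r s t : ℕ) (hr : 1 ≤ r) (_hrs : r < s) (hst : s < t) :
    (t < s + t / r → ∀ n : ℕ, t < n →
      2 * r + (t - s) + 2 ^ (r - 1) * (r - 1).factorial * (r * (t - s)) ^ 2 ≤ n →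
      f n r s t = (n - (t - s)).choose r) ∧
    (s + t / r ≤ t → ∀ n : ℕ, t < n → f n r s t + (n / r) ^ r ≤ n.choose r) :=
  ⟨fun h n htn hn => exact n r s t hr hst htn.le h (by rwa [← sq]),
    fun h n _ => outside n r s t hr h⟩

end Pool.Agent.Results.MP_455133_co.MatchingRegime
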